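import Pool.Agent.H67.FS.Targets

/-!
# MP_6f7589_ag, module LCX: lifting of the complex
-/

set_option autoImplicit false

namespace Pool.Agent.H89.FS

open Matrix IsLocalRing Pool.Agent.H67.FS

universe u

section sums

variable {ι : Type} [Fintype ι] [LinearOrder ι] {M : Type u} [AddCommMonoid M]

/-- symmetrisation of a double sum -/
lemma sum_symm (F : ι → ι → M) :
    ∑ i, ∑ j, F i j = ∑ i, ∑ j, if i = j then F i i else if i < j then F i j + F j i else 0 := by
  classical
  have h1 : ∀ i j, F i j = (if i = j then F i j else 0) + (if i < j then F i j else 0) +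
      (if j < i then F i j else 0) := by
    intro i j
    rcases lt_trichotomy i j with h | h | h
    · simp [h, h.ne, h.not_gt]
    · simp [h]
    · simp [h, h.ne', h.not_gt]
  have h2 : ∑ i, ∑ j, F i j = ∑ i, ∑ j, (if i = j then F i j else 0) +
      ∑ i, ∑ j, (if i < j then F i j else 0) + ∑ i, ∑ j, (if j < i then F i j else 0) := by
    rw [← Finset.sum_add_distrib, ← Finset.sum_add_distrib]
    refine Finset.sum_congr rfl fun i _ => ?_
    rw [← Finset.sum_add_distrib, ← Finset.sum_add_distrib]
    exact Finset.sum_congr rfl fun j _ => h1 i j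
  have h3 : ∑ i, ∑ j, (if j < i then F i j else 0) = ∑ i, ∑ j, (if i < j then F j i else 0) := by
    rw [Finset.sum_comm]
  rw [h2, h3, ← Finset.sum_add_distrib, ← Finset.sum_add_distrib]
  refine Finset.sum_congr rfl fun i _ => ?_
  rw [← Finset.sum_add_distrib, ← Finset.sum_add_distrib]
  refine Finset.sum_congr rfl fun j _ => ?_
  rcases lt_trichotomy i j with h | h | h
  · simp [h, h.ne]
  · simp [h]
  · simp [h.ne', h.not_gt]

end sums

section mulVec

variable {ι p q : Type} [Fintype ι] [Fintype p] {R : Type u} [CommRing R]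

lemma sum_smul_mulVec (x : ι → R) (B : ι → Matrix q p R) (v : p → R) :
    (∑ i, x i • B i) *ᵥ v = ∑ i, x i • (B i *ᵥ v) := by
  rw [Matrix.sum_mulVec]
  exact Finset.sum_congr rfl fun i _ => Matrix.smul_mulVec _ _ _

lemma mulVec_sum_smul (x : ι → R) (B : Matrix q p R) (b : ι → p → R) :
    B *ᵥ (∑ j, x j • b j) = ∑ j, x j • (B *ᵥ b j) := by
  rw [Matrix.mulVec_sum]
  exact Finset.sum_congr rfl fun i _ => Matrix.mulVec_smul _ _ _

lemma sum_mulVec_sum (x : ι → R) (B : ι → Matrix q p R) (b : ι → p → R) :
    (∑ i, x i • B i) *ᵥ (∑ j, x j • b j) = ∑ i, ∑ j, (x i * x j) • (B i *ᵥ b j) := by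
  rw [sum_smul_mulVec]
  refine Finset.sum_congr rfl fun i _ => ?_
  rw [mulVec_sum_smul, Finset.smul_sum]
  exact Finset.sum_congr rfl fun j _ => by rw [smul_smul]

end mulVec

section step

variable {R : Type u} [CommRing R] {ι p q : Type} [DecidableEq ι] [Fintype p]

/-- the map `b ↦ (B_i b_j + B_j b_i)` -/
def Phi (B : ι → Matrix q p R) : (ι × p → R) →ₗ[R] (ι × ι × q → R) where
  toFun b s := if s.1 = s.2.1 then (B s.1 *ᵥ fun t => b (s.1, t)) s.2.2 else
    (B s.1 *ᵥ fun t => b (s.2.1, t)) s.2.2 + (B s.2.1 *ᵥ fun t => b (s.1, t)) s.2.2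
  map_add' b c := by
    funext s
    have e : ∀ i k : ι, (B i *ᵥ fun t => (b + c) (k, t)) s.2.2 =
        (B i *ᵥ fun t => b (k, t)) s.2.2 + (B i *ᵥ fun t => c (k, t)) s.2.2 := fun i k =>
      congrFun (Matrix.mulVec_add (B i) (fun t => b (k, t)) (fun t => c (k, t))) s.2.2
    rw [Pi.add_apply, e, e, e]
    split_ifs
    · rfl
    · ring
  map_smul' a b := by
    funext s
    have e : ∀ i k : ι, (B i *ᵥ fun t => (a • b) (k, t)) s.2.2 =
        a * (B i *ᵥ fun t => b (k, t)) s.2.2 := fun i k =>
      congrFun (Matrix.mulVec_smul (B i) a (fun t => b (k, t))) s.2.2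
    rw [Pi.smul_apply, e, e, e, RingHom.id_apply, smul_eq_mul]
    split_ifs
    · rfl
    · ring

lemma Phi_apply (B : ι → Matrix q p R) (b : ι × p → R) (i j : ι) (t : q) :
    Phi B b (i, j, t) = if i = j then (B i *ᵥ fun t => b (i, t)) t else
    (B i *ᵥ fun t => b (j, t)) t + (B j *ᵥ fun t => b (i, t)) t := rfl

end step

lemma map_mulVec_apply {R S : Type u} [CommRing R] [CommRing S] (f : R →+* S) {p q : Type} [Fintype p]
    (M : Matrix q p R) (v : p → R) (t : q) : f ((M *ᵥ v) t) = (M.map f *ᵥ fun i => f (v i)) t := by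
  simp only [Matrix.mulVec, dotProduct, map_sum, map_mul, Matrix.map_apply]

section main

variable (K : Type u) {R L : Type u} [Field K] [CommRing R] [IsDomain R]
  [ValuationRing R] [Field L] [Algebra R L] [IsFractionRing R L] [Algebra K R]

lemma step (hL : T_LIFT.{u}) (hC : T_COL.{u}) {ι p q : Type} [Fintype ι] [LinearOrder ι]
    [Fintype p] [Fintype q] (B : ι → Matrix q p (ResidueField R)) (B' : ι → Matrix q p R)
    (hB : ∀ i, (B' i).map (residue R) = B i)
    (hr : ∀ x : ι → Kˣ, ((∑ i, algebraMap K R (x i) • B' i).map (algebraMap R L)).rank ≤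
      (∑ i, algebraMap K (ResidueField R) (x i) • B i).rank)
    (tf : ∀ c : ι → ι → q → ResidueField R,
      (∀ x : ι → Kˣ, ∃ u : p → ResidueField R,
        (∑ i, algebraMap K (ResidueField R) (x i) • B i) *ᵥ u =
        ∑ i, ∑ j, algebraMap K (ResidueField R) (x i * x j) • c i j) →
      ∃ y : ι → p → ResidueField R, (∀ i, B i *ᵥ y i = c i i) ∧
        ∀ i j, i ≠ j → B i *ᵥ y j + B j *ᵥ y i = c i j + c j i)
    (y : ι → p → ResidueField R) (hy1 : ∀ i, B i *ᵥ y i = 0)
    (hy2 : ∀ i j, B i *ᵥ y j + B j *ᵥ y i = 0) :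
    ∃ y' : ι → p → R, (∀ i t, residue R (y' i t) = y i t) ∧ (∀ i, B' i *ᵥ y' i = 0) ∧
      ∀ i j, B' i *ᵥ y' j + B' j *ᵥ y' i = 0 := by
  classical
  -- compatibility with reduction
  have hres : ∀ b : ι × p → R, (fun j => residue R (Phi B' b j)) =
      Phi B (fun i => residue R (b i)) := by
    intro b
    funext s
    obtain ⟨i, j, t⟩ := s
    rw [Phi_apply, Phi_apply]
    split_ifs
    · rw [map_mulVec_apply, hB]
    · rw [map_add, map_mulVec_apply, map_mulVec_apply, hB, hB]
  -- the main hypothesis of `T_LIFT`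
  have hmain : ∀ (b : ι × p → R) (c : ι × ι × q → R) (α : R), α ≠ 0 → α ∈ maximalIdeal R →
      Phi B' b = α • c → (fun j => residue R (c j)) ∈ LinearMap.range (Phi B) := by
    intro b c α hα _ hbc
    have hbc' : ∀ i j t, Phi B' b (i, j, t) = α * c (i, j, t) := by
      intro i j t
      rw [hbc]
      rfl
    have hsymm : ∀ i j t, c (i, j, t) = c (j, i, t) := by
      intro i j t
      apply mul_left_cancel₀ hα
      rw [← hbc', ← hbc', Phi_apply, Phi_apply]
      by_cases hij : i = j
      · subst hij; rfl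
      · rw [if_neg hij, if_neg (Ne.symm hij), add_comm]
    -- the truncated coefficients
    obtain ⟨ct, hct⟩ : ∃ ct : ι → ι → q → R, ct = fun i j t => if i ≤ j then c (i, j, t) else 0 :=
      ⟨_, rfl⟩
    have hsum : ∀ x : ι → Kˣ, (∑ i, algebraMap K R (x i) • B' i) *ᵥ
        (∑ j, algebraMap K R (x j) • fun t => b (j, t)) =
        α • ∑ i, ∑ j, (algebraMap K R (x i) * algebraMap K R (x j)) • ct i j := by
      intro x
      rw [sum_mulVec_sum, sum_symm, Finset.smul_sum]
      refine Finset.sum_congr rfl fun i _ => ?_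
      rw [Finset.smul_sum]
      refine Finset.sum_congr rfl fun j _ => ?_
      funext t
      rcases lt_trichotomy i j with h | h | h
      · rw [if_neg h.ne, if_pos h]
        have e := hbc' i j t
        rw [Phi_apply, if_neg h.ne] at e
        simp only [Pi.add_apply, Pi.smul_apply, smul_eq_mul, hct, if_pos h.le]
        linear_combination (algebraMap K R (x i) * algebraMap K R (x j)) * e
      · subst h
        rw [if_pos rfl]
        have e := hbc' i i t
        rw [Phi_apply, if_pos rfl] at e
        simp only [Pi.smul_apply, smul_eq_mul, hct, if_pos le_rfl]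
        linear_combination (algebraMap K R (x i) * algebraMap K R (x i)) * e
      · rw [if_neg h.ne', if_neg h.not_gt]
        simp only [Pi.smul_apply, smul_eq_mul, hct, if_neg h.not_ge, Pi.zero_apply, mul_zero]
    have hmap : ∀ x : ι → Kˣ, (∑ i, algebraMap K R (x i) • B' i).map (residue R) =
        ∑ i, algebraMap K (ResidueField R) (x i) • B i := by
      intro x
      have h1 : (∑ i, algebraMap K R (x i) • B' i).map (residue R) =
          ∑ i, (algebraMap K R (x i) • B' i).map (residue R) := by
        ext s t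
        simp only [Matrix.map_apply, Matrix.sum_apply, map_sum]
      rw [h1]
      refine Finset.sum_congr rfl fun i _ => ?_
      ext s t
      rw [← hB]
      simp only [Matrix.map_apply, Matrix.smul_apply, smul_eq_mul, map_mul]
      rfl
    have htf := tf (fun i j t => residue R (ct i j t)) (by
      intro x
      have h1 := hC R L q p (∑ i, algebraMap K R (x i) • B' i) (by rw [hmap x]; exact hr x) _ _ α hα
        (hsum x)
      obtain ⟨d, hd⟩ := h1
      refine ⟨d, ?_⟩
      rw [← hmap x, hd]
      funext t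
      simp only [Finset.sum_apply, map_sum, Pi.smul_apply, smul_eq_mul, map_mul]
      rfl)
    obtain ⟨z, hz1, hz2⟩ := htf
    refine ⟨fun s => z s.1 s.2, ?_⟩
    funext s
    obtain ⟨i, j, t⟩ := s
    rw [Phi_apply]
    by_cases hij : i = j
    · subst hij
      rw [if_pos rfl]
      have := congrFun (hz1 i) t
      rw [this, hct]
      simp
    · rw [if_neg hij]
      have := congrFun (hz2 i j hij) t
      rw [Pi.add_apply, Pi.add_apply] at this
      rw [this, hct]
      rcases lt_or_gt_of_ne hij with h | h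
      · simp [h.le, h.not_ge]
      · simp only [if_neg h.not_ge, if_pos h.le, map_zero, zero_add]
        rw [hsymm]
  obtain ⟨w, hw, hwy⟩ := hL R (ι × p) (ι × ι × q) (Phi B') (Phi B) hres hmain
    (fun s => y s.1 s.2) (by
      funext s
      obtain ⟨i, j, t⟩ := s
      rw [Phi_apply]
      split_ifs with hij
      · have := congrFun (hy1 i) t
        exact this
      · have := congrFun (hy2 i j) t
        exact this)
  refine ⟨fun i t => w (i, t), fun i t => hwy (i, t), ?_, ?_⟩
  · intro i
    funext t
    have := congrFun hw (i, i, t)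
    rw [Phi_apply, if_pos rfl] at this
    exact this
  · intro i j
    funext t
    by_cases hij : i = j
    · subst hij
      have := congrFun hw (i, i, t)
      rw [Phi_apply, if_pos rfl] at this
      simp only [Pi.add_apply]
      rw [this]
      simp
    · have := congrFun hw (i, j, t)
      rw [Phi_apply, if_neg hij] at this
      exact this

/-- matrix form of the step -/
lemma step_mat (hL : T_LIFT.{u}) (hC : T_COL.{u}) {ι o p q : Type} [Fintype ι] [LinearOrder ι]
    [Fintype o] [Fintype p] [Fintype q] (B : ι → Matrix q p (ResidueField R))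
    (B' : ι → Matrix q p R) (hB : ∀ i, (B' i).map (residue R) = B i)
    (hr : ∀ x : ι → Kˣ, ((∑ i, algebraMap K R (x i) • B' i).map (algebraMap R L)).rank ≤
      (∑ i, algebraMap K (ResidueField R) (x i) • B i).rank)
    (tf : ∀ c : ι → ι → q → ResidueField R,
      (∀ x : ι → Kˣ, ∃ u : p → ResidueField R,
        (∑ i, algebraMap K (ResidueField R) (x i) • B i) *ᵥ u =
        ∑ i, ∑ j, algebraMap K (ResidueField R) (x i * x j) • c i j) →
      ∃ y : ι → p → ResidueField R, (∀ i, B i *ᵥ y i = c i i) ∧
        ∀ i j, i ≠ j → B i *ᵥ y j + B j *ᵥ y i = c i j + c j i)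
    (A : ι → Matrix p o (ResidueField R)) (h1 : ∀ i, B i * A i = 0)
    (h2 : ∀ i j, B i * A j + B j * A i = 0) :
    ∃ A' : ι → Matrix p o R, (∀ i, (A' i).map (residue R) = A i) ∧ (∀ i, B' i * A' i = 0) ∧
      ∀ i j, B' i * A' j + B' j * A' i = 0 := by
  have key := fun s : o => step K (L := L) hL hC B B' hB hr tf (fun i t => A i t s)
    (fun i => by
      funext t
      have := congrFun (congrFun (h1 i) t) s
      exact this)
    (fun i j => by
      funext t
      have := congrFun (congrFun (h2 i j) t) s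
      exact this)
  choose y' hy1 hy2 hy3 using key
  refine ⟨fun i => Matrix.of fun t s => y' s i t, ?_, ?_, ?_⟩
  · intro i
    ext t s
    exact hy1 s i t
  · intro i
    ext t s
    exact congrFun (hy2 s i) t
  · intro i j
    ext t s
    exact congrFun (hy3 s i j) t

end main

/-- reduction does not increase the rank -/
lemma rank_res_le (hM : T_MINOR.{u}) {R L : Type u} [CommRing R] [IsDomain R]
    [ValuationRing R] [Field L] [Algebra R L] [IsFractionRing R L] {p q : Type} [Fintype p]
    [Fintype q] (M : Matrix q p R) :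
    (M.map (residue R)).rank ≤ (M.map (algebraMap R L)).rank := by
  classical
  obtain ⟨f, g, hfg⟩ := (hM (ResidueField R) q p (M.map (residue R)) _).1 le_rfl
  refine (hM L q p (M.map (algebraMap R L)) _).2 ⟨f, g, ?_⟩
  have h1 : ((M.map (residue R)).submatrix f g).det = residue R (M.submatrix f g).det := by
    rw [RingHom.map_det]
    rfl
  have h2 : ((M.map (algebraMap R L)).submatrix f g).det = algebraMap R L (M.submatrix f g).det := by
    rw [RingHom.map_det]
    rfl
  rw [h1] at hfg
  rw [h2]
  intro h0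
  have h3 : (M.submatrix f g).det = 0 := by
    exact (IsFractionRing.injective R L) (by rw [h0, map_zero])
  rw [h3, map_zero] at hfg
  exact hfg rfl

theorem lcx (hL : T_LIFT.{u}) (hC : T_COL.{u}) (hM : T_MINOR.{u}) : T_LCX.{u} := by
  intro K R L _ _ _ _ _ _ _ _ _ ι n1 n2 n3 _ _ _ _ _ e A2 A1 F0 A2' hcx hA2 hr
  classical
  obtain ⟨A1', hA1, ha1, ha2⟩ := step_mat K (L := L) hL hC A2 A2' hA2 hr hcx.tf2 A1 hcx.z2a hcx.z2b
  have hr1 : ∀ x : ι → Kˣ, ((∑ i, algebraMap K R (x i) • A1' i).map (algebraMap R L)).rank ≤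
      (∑ i, algebraMap K (ResidueField R) (x i) • A1 i).rank := by
    intro x
    have hmap : (∑ i, algebraMap K R (x i) • A2' i).map (residue R) =
        ∑ i, algebraMap K (ResidueField R) (x i) • A2 i := by
      have h1 : (∑ i, algebraMap K R (x i) • A2' i).map (residue R) =
          ∑ i, (algebraMap K R (x i) • A2' i).map (residue R) := by
        ext s t
        simp only [Matrix.map_apply, Matrix.sum_apply, map_sum]
      rw [h1]
      refine Finset.sum_congr rfl fun i _ => ?_
      ext s t
      rw [← hA2]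
      simp only [Matrix.map_apply, Matrix.smul_apply, smul_eq_mul, map_mul]
      rfl
    have h1 := rank_res_le (L := L) hM (∑ i, algebraMap K R (x i) • A2' i)
    rw [hmap] at h1
    have hprod : (∑ i, algebraMap K R (x i) • A2' i) * (∑ i, algebraMap K R (x i) • A1' i) = 0 := by
      have hexp : (∑ i, algebraMap K R (x i) • A2' i) * (∑ i, algebraMap K R (x i) • A1' i) =
          ∑ i, ∑ j, (algebraMap K R (x i) • A2' i) * (algebraMap K R (x j) • A1' j) := by
        rw [Matrix.sum_mul]
        exact Finset.sum_congr rfl fun i _ => Matrix.mul_sum _ _ _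
      rw [hexp, sum_symm]
      refine Finset.sum_eq_zero fun i _ => Finset.sum_eq_zero fun j _ => ?_
      split_ifs with h2 h3
      · rw [Matrix.smul_mul, Matrix.mul_smul, ha1, smul_zero, smul_zero]
      · rw [Matrix.smul_mul, Matrix.mul_smul, Matrix.smul_mul, Matrix.mul_smul, smul_smul, smul_smul,
          mul_comm (algebraMap K R (x j)), ← smul_add, ha2, smul_zero]
      · rfl
    have hprodL : ((∑ i, algebraMap K R (x i) • A2' i).map (algebraMap R L)) *
        ((∑ i, algebraMap K R (x i) • A1' i).map (algebraMap R L)) = 0 := by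
      rw [← Matrix.map_mul, hprod]
      ext s t
      simp
    have h2 := Matrix.rank_add_rank_le_card_of_mul_eq_zero hprodL
    have h3 := hcx.r2 x
    omega
  obtain ⟨F0', hF0, hf1, hf2⟩ := step_mat K (L := L) hL hC A1 A1' hA1 hr1 hcx.tf1 F0 hcx.z1a hcx.z1b
  exact ⟨A1', F0', hA1, hF0, hf1, hf2, ha1, ha2⟩

end Pool.Agent.H89.FS
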